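import Pool.Agent.Lib.MP_2347b2_mp.F.T3Basis
import Pool.Agent.Lib.MP_2347b2_mp.F.Main

/-!
The Furry hydrogenic density decreases monotonically in the distance from the nucleus, for every
admissible coupling constant.
-/

open Pool.Agent.Lib.MP_2347b2_mp.Dirac

theorem Pool.Agent.Results.MP_2347b2_mp.FurryMonotone.result (γ : ℝ) (h0 : 0 < γ) (h1 : γ < 1) :
    (∃ (ι : Type) (ψ : ι → EuclideanSpace ℝ (Fin 3) → Fin 4 → ℂ), IsBoundBasis γ ψ) ∧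
    ∀ (ι : Type) (ψ : ι → EuclideanSpace ℝ (Fin 3) → Fin 4 → ℂ), IsBoundBasis γ ψ →
      ∀ x y : EuclideanSpace ℝ (Fin 3), 0 < ‖x‖ → ‖x‖ ≤ ‖y‖ →
        Summable (fun j => nsq (ψ j x)) ∧ Summable (fun j => nsq (ψ j y)) ∧
        ∑' j, nsq (ψ j y) ≤ ∑' j, nsq (ψ j x) := by
  refine ⟨exists_basis h0 h1, fun ι ψ hψ x y hx hxy => ?_⟩
  obtain ⟨a, b, -, d⟩ := lift h0 h1 (Pool.Agent.Lib.MP_2347b2_mp.F.full h0 h1) hψ hx hxy
  exact ⟨a, b, d⟩
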